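import Pool.Agent.Helper67.LM.Defs

/-!
# Local minimality of the simplex: basic facts about `T`
-/

open MeasureTheory Set
open scoped ENNReal
open Pool.Agent.Helper47.AQ

noncomputable section

namespace Pool.Agent.Helper67.LM

variable {ι : Type} [Fintype ι]

theorem body_T : IsBody (T ι) := corner_simplex.body

theorem simplex_T [DecidableEq ι] : IsSimplex (T ι) := by
  have h2 := simplexW (fun _ : ι => (1 : ℝ)) (fun _ => one_pos)
  simp only [mul_one] at h2
  exact ⟨corner_simplex.body.int, h2⟩

theorem bc_nonneg {x : ι → ℝ} (hx : x ∈ T ι) (o : Option ι) : 0 ≤ bc x o := by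
  cases o with
  | none => have := hx.2; simp only [bc]; linarith
  | some i => exact hx.1 i

theorem sum_bc (x : ι → ℝ) : ∑ o, bc x o = 1 := by
  rw [Fintype.sum_option]
  simp [bc]

theorem bc_le_one {x : ι → ℝ} (hx : x ∈ T ι) (o : Option ι) : bc x o ≤ 1 := by
  rw [← sum_bc x]
  exact Finset.single_le_sum (fun o _ => bc_nonneg hx o) (Finset.mem_univ o)

theorem continuous_bc (o : Option ι) : Continuous fun x : ι → ℝ => bc x o := by
  cases o with
  | none =>
    simp only [bc]
    fun_prop
  | some i =>
    simp only [bc]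
    fun_prop

theorem vol_T [Nonempty ι] : volume (T ι) = ENNReal.ofReal (1 / (Fintype.card ι).factorial) := by
  classical
  set A : Set (ι → ℝ) := {x | (∑ i, |x i| ^ (1 : ℝ)) ^ (1 / (1 : ℝ)) ≤ 1} with hA
  have hA1 : A = {x | ∑ i, |x i| ≤ 1} := by
    ext x
    simp [hA]
  have hvol : volume A = ENNReal.ofReal (2 ^ Fintype.card ι / (Fintype.card ι).factorial) := by
    rw [hA, volume_sum_rpow_le ι le_rfl 1]
    have h1 : Real.Gamma ((Fintype.card ι : ℝ) / 1 + 1) = (Fintype.card ι).factorial := by
      rw [div_one, Real.Gamma_nat_eq_factorial]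
    have h2 : Real.Gamma (1 / 1 + 1) = 1 := by
      have := Real.Gamma_nat_eq_factorial 1
      simpa using this
    rw [h1, h2]
    simp
  have hAm : MeasurableSet A := by
    rw [hA1]
    exact (isClosed_le (continuous_finsetSum _ fun i _ => (continuous_apply i).abs)
      continuous_const).measurableSet
  have hor := vol_orthants A hAm (fun s x => by
    rw [hA1]
    show ∑ i, |flip s x i| ≤ 1 ↔ ∑ i, |x i| ≤ 1
    simp only [abs_flip])
  have hPT : volume (T ι) = volume (P ι ∩ A) := by
    refine measure_congr ?_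
    filter_upwards [ae_ne_zero] with x hx
    refine propext ?_
    constructor
    · rintro ⟨h1, h2⟩
      refine ⟨fun i => lt_of_le_of_ne (h1 i) (hx i).symm, ?_⟩
      rw [hA1]
      show ∑ i, |x i| ≤ 1
      rwa [Finset.sum_congr rfl fun i _ => abs_of_nonneg (h1 i)]
    · rintro ⟨h1, h2⟩
      rw [hA1] at h2
      have h2' : ∑ i, |x i| ≤ 1 := h2
      rw [Finset.sum_congr rfl fun i _ => abs_of_nonneg (h1 i).le] at h2'
      exact ⟨fun i => (h1 i).le, h2'⟩
  rw [hvol, ← hPT] at hor
  have h3 : (2 : ℝ≥0∞) ^ Fintype.card ι = ENNReal.ofReal (2 ^ Fintype.card ι) := by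
    rw [ENNReal.ofReal_pow (by norm_num)]
    simp
  have hpos : (0 : ℝ) < 2 ^ Fintype.card ι := by positivity
  have h4 : ENNReal.ofReal (2 ^ Fintype.card ι / (Fintype.card ι).factorial) =
      ENNReal.ofReal (2 ^ Fintype.card ι) * ENNReal.ofReal (1 / (Fintype.card ι).factorial) := by
    rw [← ENNReal.ofReal_mul hpos.le]
    congr 1
    ring
  rw [h3, h4] at hor
  exact ((ENNReal.mul_right_inj (by simp) ENNReal.ofReal_ne_top).1 hor).symm

theorem vol_T_real [Nonempty ι] : (volume (T ι)).toReal = 1 / (Fintype.card ι).factorial := by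
  rw [vol_T, ENNReal.toReal_ofReal (by positivity)]

theorem dpol_T_real [Nonempty ι] : (volume (dpol (T ι))).toReal = (Fintype.card ι : ℝ) + 1 := by
  classical
  have h := (simplex_T (ι := ι)).F_eq
  unfold F at h
  rw [vol_T_real] at h
  have hf : (0 : ℝ) < (Fintype.card ι).factorial := by positivity
  field_simp at h
  linarith

end Pool.Agent.Helper67.LM
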