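import Pool.Agent.Helper8.LM.SYM
import Pool.Agent.Helper56.LM.POLE
import Pool.Agent.Helper86.LM.HOM
import Pool.Agent.Helper31.LM.CUB
import Pool.Agent.Helper87.LM.DLL
import Pool.Agent.Helper93.LM.RV0
import Pool.Agent.Helper61.LM.BAD
import Pool.Agent.Helper20.LM.COV
import Pool.Agent.Helper61.LM.EPS
import Pool.Agent.Helper79.LM.MINS
import Pool.Agent.Helper77.LM.CEN
import Pool.Agent.Helper67.LM.Base

/-!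
# Local minimality of the simplex: the packets, without hypotheses
-/

open MeasureTheory Set
open scoped ENNReal
open Pool.Agent.Helper47.AQ

noncomputable section

namespace Pool.Agent.Helper67.LM

variable {ι : Type} [Fintype ι] [DecidableEq ι]

theorem fSYM (o : Option ι) :
    Function.Involutive (co o : (ι → ℝ) → (ι → ℝ)) ∧ (∀ x : ι → ℝ, co o x ∈ T ι ↔ x ∈ T ι) ∧
    (∀ (x : ι → ℝ) (o' : Option ι), bc (co o x) o' = bc x (Equiv.swap none o o')) ∧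
    (∃ A : (ι → ℝ) ≃ᵃ[ℝ] (ι → ℝ), ∀ x, A x = co o x) ∧
    (∀ S : Set (ι → ℝ), volume (co o '' S) = volume S) ∧
    MeasurePreserving (co o : (ι → ℝ) → (ι → ℝ)) volume volume := Pool.Agent.Helper8.LM.sym o

theorem fPOLE [Nonempty ι] {K : Set (ι → ℝ)} (hK : IsBody K) (hT : K ⊆ T ι) :
    ((Fintype.card ι).factorial : ℝ≥0∞) * volume (dpol (T ι)) +
      2 * ∑ o : Option ι, ∫⁻ u in P ι, ENNReal.ofReal (Real.exp (-‖u‖) * dl K o u) ≤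
    ((Fintype.card ι).factorial : ℝ≥0∞) * volume (dpol K) := Pool.Agent.Helper56.LM.pole hK hT

theorem fHOM [Nonempty ι] (h : (ι → ℝ) → ℝ≥0∞) (hm : Measurable h)
    (hh : ∀ t : ℝ, 0 < t → ∀ u, h (t • u) = ENNReal.ofReal t * h u) :
    ∫⁻ u in P ι, ENNReal.ofReal (Real.exp (-‖u‖)) * h u =
      ((Fintype.card ι + 1).factorial : ℝ≥0∞) * ∫⁻ u in cub ι, h u :=
  Pool.Agent.Helper86.LM.hom h hm hh

theorem fDLL [Nonempty ι] {K : Set (ι → ℝ)} (hK : IsBody K) (hT : K ⊆ T ι) (κ θ e : ℝ)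
    (hκ0 : 0 ≤ κ) (hκ1 : κ ≤ 1) (hθ0 : 0 ≤ θ) (hθ1 : θ ≤ 1) (o : Option ι) (d : ι → ℝ)
    (hd0 : ∀ i, 0 ≤ d i) (hds : ∑ i, d i ≤ κ ^ 3) (he0 : 0 ≤ e) (he1 : e ≤ κ ^ 3)
    (hKe : ∀ y ∈ K, bc y o ≤ 1 - e)
    (hKd : ∀ y ∈ K, 1 - κ ^ 2 ≤ bc y o → ∀ i, d i ≤ co o y i) :
    (Continuous (dl K o) ∧ (∀ u ∈ P ι, 0 ≤ dl K o u) ∧
      ∀ t : ℝ, 0 < t → ∀ u, dl K o (t • u) = t * dl K o u) ∧
    θ * (∑ i, d i) / 2 + (1 - θ) * e / ((Fintype.card ι : ℝ) + 1) - Fintype.card ι * κ ^ 4 ≤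
      ∫ u in cub ι, dl K o u :=
  Pool.Agent.Helper87.LM.dll Pool.Agent.Helper31.LM.cub hK hT κ θ e hκ0 hκ1 hθ0 hθ1 o d hd0 hds he0
    he1 hKe hKd

theorem fRV0 [Nonempty ι] (d : ι → ℝ) (hd : ∀ i, 0 ≤ d i) :
    volume (RR d) ≤ ENNReal.ofReal ((1 - 1 / (Fintype.card ι : ℝ)) * ∑ i, d i) * volume (T ι) :=
  Pool.Agent.Helper93.LM.rv0 d hd

theorem fBAD [Nonempty ι] (j k : Option ι) (hjk : j ≠ k) (s t : ℝ) (hs : 0 ≤ s) (ht : 0 ≤ t)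
    (hst : s + t < 1) :
    volume {x : ι → ℝ | x ∈ T ι ∧ bc x j < s ∧ bc x k < t} ≤ ENNReal.ofReal (s * t) :=
  Pool.Agent.Helper61.LM.bad fSYM j k hjk s t hs ht hst

theorem fCOV [Nonempty ι] {K : Set (ι → ℝ)} (hK : IsBody K) (hT : K ⊆ T ι)
    (hc : ∀ o : Option ι, co o (fun _ => 1 / (Fintype.card ι : ℝ)) ∈ K) (κ : ℝ) (hκ0 : 0 < κ)
    (hκ1 : κ ≤ 1 / 4) (hp : ∀ k : Option ι, ∃ p ∈ K, 1 - κ ^ 3 ≤ bc p k)
    (d : Option ι → Option ι → ℝ) (hd : ∀ k j, 0 ≤ d k j ∧ d k j ≤ κ ^ 3)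
    (hdp : ∀ k j, k ≠ j → ∃ p ∈ K, 1 - κ ^ 2 ≤ bc p k ∧ bc p j ≤ d k j) :
    T ι \ K ⊆ (⋃ j : Option ι, {x | x ∈ T ι ∧
        co j x ∈ RR (fun i => d (Equiv.swap none j (some i)) j + 8 * κ ^ 4)}) ∪
      ⋃ j : Option ι, ⋃ k : Option ι, {x | k ≠ j ∧ x ∈ T ι ∧ bc x j < 2 * κ ^ 3 ∧ bc x k < κ} :=
  Pool.Agent.Helper20.LM.cov hK hT hc κ hκ0 hκ1 hp d hd hdp

theorem fEPS [Nonempty ι] {K : Set (ι → ℝ)} (hT : K ⊆ T ι) (o : Option ι)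
    (e : ℝ) (he0 : 0 ≤ e) (he1 : e ≤ 1) (h : ∀ y ∈ K, bc y o ≤ 1 - e) :
    (volume K).toReal ≤ (1 - e ^ Fintype.card ι) * (volume (T ι)).toReal :=
  Pool.Agent.Helper61.LM.eps fSYM hT o e he0 he1 h

theorem fMINS [Nonempty ι] {K : Set (ι → ℝ)} (hK : IsBody K) :
    ∃ A : (ι → ℝ) ≃ᵃ[ℝ] (ι → ℝ), A '' K ⊆ T ι ∧
      ∀ D : Set (ι → ℝ), IsSimplex D → A '' K ⊆ D → volume (T ι) ≤ volume D :=
  Pool.Agent.Helper79.LM.mins hK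

theorem fCEN [Nonempty ι] {K : Set (ι → ℝ)} (hK : IsBody K) (hT : K ⊆ T ι)
    (hmin : ∀ D : Set (ι → ℝ), IsSimplex D → K ⊆ D → volume (T ι) ≤ volume D) (o : Option ι) :
    co o (fun _ => 1 / (Fintype.card ι : ℝ)) ∈ K :=
  Pool.Agent.Helper77.LM.cen fSYM hK hT hmin o

end Pool.Agent.Helper67.LM
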