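import Pool.Agent.Helper67.LM.Base
import Pool.Agent.Helper67.LM.Facts

/-!
# Local minimality of the simplex: assembly
-/

open MeasureTheory Set
open scoped ENNReal
open Pool.Agent.Helper47.AQ

noncomputable section

namespace Pool.Agent.Helper67.LM

/-- Elementary inequality behind the assembly. -/
theorem arith (a c0 C1 C2 N κ : ℝ) (ha0 : 0 ≤ a) (haN : a ≤ N * κ ^ 3) (hc0 : 0 < c0)
    (hc1 : c0 ≤ 1) (hC1 : 0 ≤ C1) (hC2 : 0 ≤ C2) (hN : 1 ≤ N) (hκ0 : 0 < κ) (hκ1 : κ ≤ 1)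
    (hκ : κ * (2 * (C1 + C2 + (N + 1) * (N + C2))) ≤ c0)
    (A B : ℝ) (hA : 1 + a + c0 * κ ^ 3 - C1 * κ ^ 4 ≤ A) (hB : 1 - a - C2 * κ ^ 4 ≤ B) :
    1 + c0 / (2 * (N + C2)) * (1 - B) ≤ A * B := by
  have hκ3 : 0 < κ ^ 3 := by positivity
  have hκ31 : κ ^ 3 ≤ 1 := pow_le_one₀ hκ0.le hκ1
  have hκ3' : κ ^ 3 ≤ κ := by
    calc κ ^ 3 = κ * κ ^ 2 := by ring
      _ ≤ κ * 1 := by
        apply mul_le_mul_of_nonneg_left _ hκ0.le
        exact pow_le_one₀ hκ0.le hκ1
      _ = κ := mul_one _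
  have hκ4 : κ ^ 4 = κ * κ ^ 3 := by ring
  have hκ4' : κ ^ 4 ≤ κ ^ 3 := by nlinarith
  have hNC : 0 < N + C2 := by linarith
  have hb : a + C2 * κ ^ 4 ≤ (N + C2) * κ ^ 3 := by nlinarith
  have hb0 : 0 ≤ a + C2 * κ ^ 4 := by positivity
  set B0 := 1 - a - C2 * κ ^ 4 with hB0
  set A0 := 1 + a + c0 * κ ^ 3 - C1 * κ ^ 4 with hA0
  have q1 : 0 ≤ κ * C1 := mul_nonneg hκ0.le hC1
  have q2 : 0 ≤ κ * C2 := mul_nonneg hκ0.le hC2
  have q3 : 0 ≤ κ * ((N - 1) * (N + C2)) :=
    mul_nonneg hκ0.le (mul_nonneg (by linarith) hNC.le)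
  have q4 : κ * (2 * (C1 + C2 + (N + 1) * (N + C2))) = 2 * (κ * C1) + 2 * (κ * C2) +
      2 * (κ * ((N - 1) * (N + C2))) + 4 * (κ * (N + C2)) := by ring
  have q5 : 0 ≤ κ * (N + C2) := mul_nonneg hκ0.le hNC.le
  have k1 : κ * (N + C2) ≤ 1 / 2 := by linarith
  have hB00 : 0 ≤ B0 := by
    have : (N + C2) * κ ^ 3 ≤ (N + C2) * κ := mul_le_mul_of_nonneg_left hκ3' hNC.le
    linarith
  have k2 : κ * C1 ≤ 1 / 2 := by linarith
  have hA00 : 0 ≤ A0 := by
    have h1 : C1 * κ ^ 4 ≤ 1 / 2 := by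
      rw [hκ4]
      nlinarith [mul_nonneg hκ0.le hC1]
    have : 0 ≤ c0 * κ ^ 3 := by positivity
    linarith
  have hprod : 1 + c0 / 2 * κ ^ 3 ≤ A0 * B0 := by
    have e1 : A0 * B0 = 1 + c0 * κ ^ 3 - C1 * κ ^ 4 - C2 * κ ^ 4 -
        (a + c0 * κ ^ 3 - C1 * κ ^ 4) * (a + C2 * κ ^ 4) := by
      rw [hA0, hB0]; ring
    have e2 : (a + c0 * κ ^ 3 - C1 * κ ^ 4) * (a + C2 * κ ^ 4) ≤
        (N + 1) * (N + C2) * κ ^ 4 := by
      have h1 : a + c0 * κ ^ 3 - C1 * κ ^ 4 ≤ (N + 1) * κ ^ 3 := by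
        have h2 : 0 ≤ C1 * κ ^ 4 := by positivity
        nlinarith
      calc (a + c0 * κ ^ 3 - C1 * κ ^ 4) * (a + C2 * κ ^ 4)
          ≤ (N + 1) * κ ^ 3 * (a + C2 * κ ^ 4) := mul_le_mul_of_nonneg_right h1 hb0
        _ ≤ (N + 1) * κ ^ 3 * ((N + C2) * κ ^ 3) := by
            apply mul_le_mul_of_nonneg_left hb
            positivity
        _ = (N + 1) * (N + C2) * κ ^ 3 * κ ^ 3 := by ring
        _ ≤ (N + 1) * (N + C2) * κ ^ 3 * κ := by
            apply mul_le_mul_of_nonneg_left hκ3'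
            have : 0 ≤ N + 1 := by linarith
            positivity
        _ = (N + 1) * (N + C2) * κ ^ 4 := by ring
    have e3 : κ ^ 4 * (C1 + C2 + (N + 1) * (N + C2)) ≤ c0 / 2 * κ ^ 3 := by
      rw [hκ4]
      nlinarith
    rw [e1]
    linarith
  have hc' : 0 < c0 / (2 * (N + C2)) := by positivity
  have hc'2 : c0 / (2 * (N + C2)) * (a + C2 * κ ^ 4) ≤ c0 / 2 * κ ^ 3 := by
    calc c0 / (2 * (N + C2)) * (a + C2 * κ ^ 4)
        ≤ c0 / (2 * (N + C2)) * ((N + C2) * κ ^ 3) := mul_le_mul_of_nonneg_left hb hc'.le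
      _ = c0 / 2 * κ ^ 3 := by field_simp
  have h1 : A0 * B0 ≤ A * B0 := mul_le_mul_of_nonneg_right hA hB00
  have h2 : A * B0 ≤ A * B := mul_le_mul_of_nonneg_left hB (hA00.trans hA)
  have h3 : c0 / (2 * (N + C2)) * (1 - B) ≤ c0 / (2 * (N + C2)) * (1 - B0) :=
    mul_le_mul_of_nonneg_left (by linarith) hc'.le
  have h4 : 1 - B0 = a + C2 * κ ^ 4 := by rw [hB0]; ring
  rw [h4] at h3
  linarith

variable {ι : Type} [Fintype ι] [DecidableEq ι]

theorem sum_swap (o : Option ι) (f : Option ι → ℝ) (h : f o = 0) :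
    ∑ i : ι, f (Equiv.swap none o (some i)) = ∑ o', f o' := by
  rw [← Equiv.sum_comp (Equiv.swap none o) f, Fintype.sum_option]
  rw [Equiv.swap_apply_left, h, zero_add]

omit [Fintype ι] in
theorem swap_ne (o : Option ι) (i : ι) : Equiv.swap none o (some i) ≠ o := by
  intro h
  have h2 : Equiv.swap none o (some i) = Equiv.swap none o none := by
    rw [h, Equiv.swap_apply_left]
  exact absurd ((Equiv.swap none o).injective h2) (by simp)

/-- The lower bound of the polar volume. -/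
theorem polar_bound [Nonempty ι] {K : Set (ι → ℝ)} (hK : IsBody K) (hT : K ⊆ T ι)
    (hcont : ∀ o, Continuous (dl K o)) (hpos : ∀ o, ∀ u ∈ P ι, 0 ≤ dl K o u)
    (hhom : ∀ o, ∀ t : ℝ, 0 < t → ∀ u, dl K o (t • u) = t * dl K o u) :
    ((Fintype.card ι : ℝ) + 1) * (1 + 2 * ∑ o : Option ι, ∫ u in cub ι, dl K o u) ≤
      (volume (dpol K)).toReal := by
  set n := Fintype.card ι with hn
  have h1 := fPOLE hK hT
  rw [← hn] at h1
  have hcP : cub ι ⊆ P ι := fun u hu i => (hu i).1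
  have hcube : cub ι ⊆ Icc (0 : ι → ℝ) 1 := fun u hu =>
    ⟨fun i => (hu i).1.le, fun i => (hu i).2.le⟩
  have hcm : MeasurableSet (cub ι) := by
    have : cub ι = Set.pi univ (fun _ : ι => Ioo (0 : ℝ) 1) := by
      ext u
      simp [cub]
    rw [this]
    exact MeasurableSet.univ_pi fun _ => measurableSet_Ioo
  have hint : ∀ o, IntegrableOn (dl K o) (cub ι) := fun o =>
    ((hcont o).continuousOn.integrableOn_compact isCompact_Icc).mono_set hcube
  have h2 : ∀ o : Option ι, ∫⁻ u in P ι, ENNReal.ofReal (Real.exp (-‖u‖) * dl K o u) =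
      ENNReal.ofReal ((n + 1).factorial * ∫ u in cub ι, dl K o u) := by
    intro o
    have e1 : ∀ u : ι → ℝ, ENNReal.ofReal (Real.exp (-‖u‖) * dl K o u) =
        ENNReal.ofReal (Real.exp (-‖u‖)) * ENNReal.ofReal (dl K o u) := fun u =>
      ENNReal.ofReal_mul (Real.exp_pos _).le
    simp_rw [e1]
    rw [fHOM (fun u => ENNReal.ofReal (dl K o u)) (hcont o).measurable.ennreal_ofReal
      (fun t ht u => by rw [hhom o t ht u, ENNReal.ofReal_mul ht.le]),
      ← ofReal_integral_eq_lintegral_ofReal (hint o) ?_]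
    · rw [ENNReal.ofReal_mul (by positivity)]
      congr 1
      rw [ENNReal.ofReal_natCast]
    · rw [Filter.EventuallyLE, ae_restrict_iff' hcm]
      exact Filter.Eventually.of_forall fun u hu => hpos o u (hcP hu)
  have hJ : ∀ o : Option ι, 0 ≤ ∫ u in cub ι, dl K o u := fun o =>
    setIntegral_nonneg hcm fun u hu => hpos o u (hcP hu)
  simp_rw [h2] at h1
  have h3 : volume (dpol (T ι)) = ENNReal.ofReal ((n : ℝ) + 1) := by
    rw [← ENNReal.ofReal_toReal body_T.dpol_ne_top, dpol_T_real]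
  have h4 : volume (dpol K) = ENNReal.ofReal ((volume (dpol K)).toReal) :=
    (ENNReal.ofReal_toReal hK.dpol_ne_top).symm
  rw [h3, h4, ← ENNReal.ofReal_natCast, ← ENNReal.ofReal_mul (by positivity),
    ← ENNReal.ofReal_mul (by positivity),
    ← ENNReal.ofReal_sum_of_nonneg (fun o _ => mul_nonneg (by positivity) (hJ o))] at h1
  have h5 : (2 : ℝ≥0∞) = ENNReal.ofReal 2 := by simp
  have hS : 0 ≤ ∑ o : Option ι, ((n + 1).factorial : ℝ) * ∫ u in cub ι, dl K o u :=
    Finset.sum_nonneg fun o _ => mul_nonneg (by positivity) (hJ o)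
  rw [h5, ← ENNReal.ofReal_mul (by norm_num), ← ENNReal.ofReal_add (by positivity) (by positivity),
    ENNReal.ofReal_le_ofReal_iff (by positivity), ← Finset.mul_sum, Nat.factorial_succ] at h1
  push_cast at h1
  have hf : (0 : ℝ) < (n.factorial : ℝ) := by exact_mod_cast n.factorial_pos
  have h6 : (n.factorial : ℝ) * (((n : ℝ) + 1) *
      (1 + 2 * ∑ o : Option ι, ∫ u in cub ι, dl K o u)) ≤
      (n.factorial : ℝ) * (volume (dpol K)).toReal := by
    calc (n.factorial : ℝ) * (((n : ℝ) + 1) * (1 + 2 * ∑ o : Option ι, ∫ u in cub ι, dl K o u))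
        = (n.factorial : ℝ) * ((n : ℝ) + 1) + 2 * (((n : ℝ) + 1) * (n.factorial : ℝ) *
          ∑ o : Option ι, ∫ u in cub ι, dl K o u) := by ring
      _ ≤ _ := h1
  exact le_of_mul_le_mul_left h6 hf

/-- The lower bound of the volume. -/
theorem volume_bound [Nonempty ι] {K : Set (ι → ℝ)} (hK : IsBody K) (hT : K ⊆ T ι)
    (hc : ∀ o : Option ι, co o (fun _ => 1 / (Fintype.card ι : ℝ)) ∈ K) (κ : ℝ) (hκ0 : 0 < κ)
    (hκ1 : κ ≤ 1 / 4) (hp : ∀ k : Option ι, ∃ p ∈ K, 1 - κ ^ 3 ≤ bc p k)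
    (d : Option ι → Option ι → ℝ) (hd : ∀ k j, 0 ≤ d k j ∧ d k j ≤ κ ^ 3) (hdd : ∀ k, d k k = 0)
    (hdp : ∀ k j, k ≠ j → ∃ p ∈ K, 1 - κ ^ 2 ≤ bc p k ∧ bc p j ≤ d k j) :
    1 - (1 - 1 / (Fintype.card ι : ℝ)) * ∑ k, ∑ j, d k j -
      (8 * (Fintype.card ι : ℝ) * ((Fintype.card ι : ℝ) + 1) +
        2 * ((Fintype.card ι : ℝ) + 1) ^ 2 * (Fintype.card ι).factorial) * κ ^ 4 ≤
      (volume K).toReal / (volume (T ι)).toReal := by
  set n := Fintype.card ι with hn
  have hn1 : (1 : ℝ) ≤ n := by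
    have : 0 < n := Fintype.card_pos
    exact_mod_cast this
  set θ : ℝ := 1 - 1 / (n : ℝ) with hθ
  have hθ0 : 0 ≤ θ := by
    rw [hθ, sub_nonneg, div_le_one (by linarith)]
    exact hn1
  have hθ1 : θ ≤ 1 := by
    rw [hθ]
    have : 0 ≤ 1 / (n : ℝ) := by positivity
    linarith
  have hcov := fCOV hK hT hc κ hκ0 hκ1 hp d hd hdp
  set v := (volume (T ι)).toReal with hv
  have hv0 : 0 < v := body_T.vol_pos
  have hvn : v = 1 / (n.factorial : ℝ) := vol_T_real
  have hTt : volume (T ι) = ENNReal.ofReal v := (ENNReal.ofReal_toReal body_T.vol_ne_top).symm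
  have hκ4 : 0 ≤ κ ^ 4 := by positivity
  -- the thin regions
  have hR : ∀ j : Option ι, volume {x : ι → ℝ | x ∈ T ι ∧
      co j x ∈ RR (fun i => d (Equiv.swap none j (some i)) j + 8 * κ ^ 4)} ≤
      ENNReal.ofReal (θ * (∑ k, d k j + 8 * n * κ ^ 4) * v) := by
    intro j
    obtain ⟨s1, s2, s3, s4, s5, s6⟩ := fSYM (ι := ι) j
    have e1 : {x : ι → ℝ | x ∈ T ι ∧
        co j x ∈ RR (fun i => d (Equiv.swap none j (some i)) j + 8 * κ ^ 4)} ⊆
        co j '' RR (fun i => d (Equiv.swap none j (some i)) j + 8 * κ ^ 4) := by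
      rintro x ⟨_, hx⟩
      exact ⟨co j x, hx, s1 x⟩
    refine (measure_mono e1).trans ?_
    rw [s5]
    refine (fRV0 _ fun i => add_nonneg (hd _ _).1 (by positivity)).trans ?_
    rw [hTt, ← ENNReal.ofReal_mul']
    · refine ENNReal.ofReal_le_ofReal ?_
      rw [Finset.sum_add_distrib, sum_swap j (fun k => d k j) (hdd j), Finset.sum_const,
        Finset.card_univ, ← hn, nsmul_eq_mul]
      apply le_of_eq
      rw [hθ]
      ring
    · exact hv0.le
  have hB : ∀ j k : Option ι, volume {x : ι → ℝ | k ≠ j ∧ x ∈ T ι ∧ bc x j < 2 * κ ^ 3 ∧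
      bc x k < κ} ≤ ENNReal.ofReal (2 * κ ^ 4) := by
    intro j k
    by_cases hkj : k = j
    · have : {x : ι → ℝ | k ≠ j ∧ x ∈ T ι ∧ bc x j < 2 * κ ^ 3 ∧ bc x k < κ} = ∅ := by
        ext x
        simp [hkj]
      rw [this, measure_empty]
      exact zero_le
    · have e1 : {x : ι → ℝ | k ≠ j ∧ x ∈ T ι ∧ bc x j < 2 * κ ^ 3 ∧ bc x k < κ} ⊆
          {x : ι → ℝ | x ∈ T ι ∧ bc x j < 2 * κ ^ 3 ∧ bc x k < κ} := fun x hx => hx.2
      have h3 : κ ^ 3 ≤ (1 / 4) ^ 3 := pow_le_pow_left₀ hκ0.le hκ1 3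
      refine (measure_mono e1).trans ((fBAD j k (Ne.symm hkj) (2 * κ ^ 3) κ (by positivity) hκ0.le
        (by norm_num at h3; linarith)).trans ?_)
      refine ENNReal.ofReal_le_ofReal ?_
      apply le_of_eq
      ring
  have htot : volume (T ι) ≤ volume K + (∑ j : Option ι,
      ENNReal.ofReal (θ * (∑ k, d k j + 8 * n * κ ^ 4) * v) +
      ∑ _j : Option ι, ∑ _k : Option ι, ENNReal.ofReal (2 * κ ^ 4)) := by
    have e1 : T ι ⊆ K ∪ (T ι \ K) := by
      intro x hx
      by_cases h : x ∈ K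
      · exact Or.inl h
      · exact Or.inr ⟨hx, h⟩
    refine (measure_mono e1).trans ((measure_union_le _ _).trans (add_le_add le_rfl ?_))
    refine (measure_mono hcov).trans ((measure_union_le _ _).trans (add_le_add ?_ ?_))
    · refine (measure_iUnion_fintype_le _ _).trans (Finset.sum_le_sum fun j _ => hR j)
    · refine (measure_iUnion_fintype_le _ _).trans (Finset.sum_le_sum fun j _ => ?_)
      exact (measure_iUnion_fintype_le _ _).trans (Finset.sum_le_sum fun k _ => hB j k)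
  have hD0 : ∀ j, 0 ≤ ∑ k, d k j := fun j => Finset.sum_nonneg fun k _ => (hd k j).1
  have hcard : Fintype.card (Option ι) = n + 1 := Fintype.card_option
  have hKt : volume K = ENNReal.ofReal (volume K).toReal :=
    (ENNReal.ofReal_toReal hK.vol_ne_top).symm
  have hterm : ∀ j : Option ι, 0 ≤ θ * (∑ k, d k j + 8 * n * κ ^ 4) * v := fun j =>
    mul_nonneg (mul_nonneg hθ0 (add_nonneg (hD0 j) (by positivity))) hv0.le
  rw [hTt, hKt, ← ENNReal.ofReal_sum_of_nonneg (fun j _ => hterm j)] at htot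
  have e2 : ∑ _j : Option ι, ∑ _k : Option ι, ENNReal.ofReal (2 * κ ^ 4) =
      ENNReal.ofReal (((n : ℝ) + 1) ^ 2 * (2 * κ ^ 4)) := by
    rw [Finset.sum_const, Finset.sum_const, Finset.card_univ, hcard, nsmul_eq_mul, nsmul_eq_mul,
      ← ENNReal.ofReal_natCast, ← ENNReal.ofReal_mul (by positivity),
      ← ENNReal.ofReal_mul (by positivity)]
    congr 1
    push_cast
    ring
  rw [e2, ← ENNReal.ofReal_add (Finset.sum_nonneg fun j _ => hterm j) (by positivity),
    ← ENNReal.ofReal_add ENNReal.toReal_nonneg (add_nonneg (Finset.sum_nonneg fun j _ => hterm j)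
      (by positivity)), ENNReal.ofReal_le_ofReal_iff (add_nonneg ENNReal.toReal_nonneg
      (add_nonneg (Finset.sum_nonneg fun j _ => hterm j) (by positivity)))] at htot
  have e3 : ∑ j : Option ι, θ * (∑ k, d k j + 8 * n * κ ^ 4) * v =
      (θ * ∑ k, ∑ j, d k j + θ * (8 * n * (n + 1) * κ ^ 4)) * v := by
    rw [← Finset.sum_mul, ← Finset.mul_sum, Finset.sum_add_distrib, Finset.sum_const,
      Finset.card_univ, hcard, nsmul_eq_mul, Finset.sum_comm]
    push_cast
    ring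
  rw [e3] at htot
  rw [le_div_iff₀ hv0]
  have hfv : (n.factorial : ℝ) * v = 1 := by
    rw [hvn]
    have hf : (0 : ℝ) < (n.factorial : ℝ) := by exact_mod_cast n.factorial_pos
    field_simp
  have e4 : (1 - θ * ∑ k, ∑ j, d k j - (8 * n * (n + 1) + 2 * (n + 1) ^ 2 * n.factorial) * κ ^ 4) * v =
      v - θ * (∑ k, ∑ j, d k j) * v - 8 * n * (n + 1) * κ ^ 4 * v -
        2 * (n + 1) ^ 2 * κ ^ 4 * ((n.factorial : ℝ) * v) := by ring
  rw [e4, hfv]
  have e5 : θ * (8 * n * (n + 1) * κ ^ 4) * v ≤ 8 * n * (n + 1) * κ ^ 4 * v := by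
    apply mul_le_mul_of_nonneg_right _ hv0.le
    have : (0 : ℝ) ≤ 8 * n * (n + 1) * κ ^ 4 := by positivity
    nlinarith
  nlinarith

/-- A body in `T` containing the vertices is `T`. -/
theorem eq_T {K : Set (ι → ℝ)} (hK : IsBody K) (hT : K ⊆ T ι)
    (h : ∀ o : Option ι, ∃ p ∈ K, bc p o = 1) : K = T ι := by
  refine Subset.antisymm hT fun x hx => ?_
  choose p hp1 hp2 using h
  have hv : ∀ o o', o' ≠ o → bc (p o) o' = 0 := by
    intro o o' hne
    have h1 := sum_bc (p o)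
    rw [← Finset.add_sum_erase _ _ (Finset.mem_univ o), hp2] at h1
    have h2 : ∑ x ∈ Finset.univ.erase o, bc (p o) x = 0 := by linarith
    exact (Finset.sum_eq_zero_iff_of_nonneg fun x _ => bc_nonneg (hT (hp1 o)) x).1 h2 o'
      (Finset.mem_erase.2 ⟨hne, Finset.mem_univ _⟩)
  have hx2 : x = ∑ o, bc x o • p o := by
    funext i
    rw [Finset.sum_apply]
    have h1 : ∀ o : Option ι, (bc x o • p o) i = if o = some i then bc x o else 0 := by
      intro o
      have h2 : p o i = bc (p o) (some i) := rfl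
      rw [Pi.smul_apply, smul_eq_mul, h2]
      by_cases ho : o = some i
      · subst ho
        rw [if_pos rfl, hp2, mul_one]
      · rw [if_neg ho, hv o (some i) (Ne.symm ho), mul_zero]
    simp_rw [h1]
    rw [Finset.sum_ite_eq' Finset.univ (some i) (fun o => bc x o), if_pos (Finset.mem_univ _)]
    rfl
  rw [hx2]
  exact hK.conv.sum_mem (fun o _ => bc_nonneg hx o) (sum_bc x) (fun o _ => hp1 o)

/-- The main step: bodies in `T` which contain the centroids of the facets and nearly contain the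
vertices. -/
theorem core [Nonempty ι] : ∃ κ0 : ℝ, 0 < κ0 ∧ ∃ c : ℝ, 0 < c ∧ ∀ K : Set (ι → ℝ), IsBody K →
    K ⊆ T ι → (∀ o : Option ι, co o (fun _ => 1 / (Fintype.card ι : ℝ)) ∈ K) →
    (∀ o : Option ι, ∃ p ∈ K, 1 - κ0 ^ 3 ≤ bc p o) →
    ((Fintype.card ι : ℝ) + 1) / ((Fintype.card ι).factorial : ℝ) *
      (1 + c * (1 - (volume K).toReal / (volume (T ι)).toReal)) ≤ F K := by
  set n := Fintype.card ι with hn
  have hn1 : (1 : ℝ) ≤ n := by
    have : 0 < n := Fintype.card_pos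
    exact_mod_cast this
  have hf : (0 : ℝ) < (n.factorial : ℝ) := by exact_mod_cast n.factorial_pos
  set N : ℝ := (n : ℝ) + 1 with hN
  set c0 : ℝ := 2 / (n * (n + 1)) with hc0
  set C1 : ℝ := 2 * n * (n + 1) with hC1
  set C2 : ℝ := 8 * (n : ℝ) * ((n : ℝ) + 1) + 2 * ((n : ℝ) + 1) ^ 2 * n.factorial with hC2
  have hc00 : 0 < c0 := by positivity
  have hc01 : c0 ≤ 1 := by
    rw [hc0, div_le_one (by positivity)]
    nlinarith
  have hC10 : 0 ≤ C1 := by positivity
  have hC20 : 0 ≤ C2 := by positivity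
  have hN1 : 1 ≤ N := by linarith
  have hM : 0 < 2 * (C1 + C2 + (N + 1) * (N + C2)) := by positivity
  refine ⟨min (1 / 4) (c0 / (2 * (C1 + C2 + (N + 1) * (N + C2)))), lt_min (by norm_num)
    (div_pos hc00 hM), c0 / (2 * (N + C2)), by positivity, fun K hK hT hc hnear => ?_⟩
  set κ0 := min (1 / 4) (c0 / (2 * (C1 + C2 + (N + 1) * (N + C2)))) with hκ0
  have hκ00 : 0 < κ0 := lt_min (by norm_num) (div_pos hc00 hM)
  -- the points nearest to the vertices
  have hmax : ∀ o : Option ι, ∃ p ∈ K, ∀ y ∈ K, bc y o ≤ bc p o := by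
    intro o
    obtain ⟨p, hp, hp2⟩ := hK.comp.exists_isMaxOn hK.nonempty (continuous_bc o).continuousOn
    exact ⟨p, hp, fun y hy => hp2 hy⟩
  choose p hp1 hp2 using hmax
  set e : Option ι → ℝ := fun o => 1 - bc (p o) o with he
  have he0 : ∀ o, 0 ≤ e o := fun o => by
    have := bc_le_one (hT (hp1 o)) o
    simp only [he]
    linarith
  have he1 : ∀ o, e o ≤ κ0 ^ 3 := fun o => by
    obtain ⟨q, hq, hq2⟩ := hnear o
    have := hp2 o q hq
    simp only [he]
    linarith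
  obtain ⟨m, _, hm⟩ := Finset.exists_max_image (Finset.univ : Finset (Option ι)) e
    ⟨none, Finset.mem_univ _⟩
  have hm' : ∀ o, e o ≤ e m := fun o => hm o (Finset.mem_univ o)
  by_cases hem : e m = 0
  · have hKT : K = T ι := by
      refine eq_T hK hT fun o => ⟨p o, hp1 o, ?_⟩
      have h1 := hm' o
      rw [hem] at h1
      have h2 := he0 o
      simp only [he] at h1 h2
      linarith
    rw [hKT, simplex_T.F_eq, div_self body_T.vol_pos.ne', sub_self, mul_zero, add_zero, mul_one]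
  have hem0 : 0 < e m := lt_of_le_of_ne (he0 m) (Ne.symm hem)
  set κ : ℝ := e m ^ (1 / 3 : ℝ) with hκ
  have hκpos : 0 < κ := Real.rpow_pos_of_pos hem0 _
  have hκ3 : κ ^ 3 = e m := by
    rw [hκ, ← Real.rpow_natCast, ← Real.rpow_mul hem0.le]
    norm_num
  have hκle : κ ≤ κ0 := by
    have h1 : κ ^ 3 ≤ κ0 ^ 3 := by rw [hκ3]; exact he1 m
    exact le_of_pow_le_pow_left₀ (by norm_num) hκ00.le h1
  have hκ14 : κ ≤ 1 / 4 := hκle.trans (min_le_left _ _)
  have hκ1 : κ ≤ 1 := by linarith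
  have hκM : κ * (2 * (C1 + C2 + (N + 1) * (N + C2))) ≤ c0 := by
    have h1 : κ ≤ c0 / (2 * (C1 + C2 + (N + 1) * (N + C2))) := hκle.trans (min_le_right _ _)
    rwa [le_div_iff₀ hM] at h1
  have hκ32 : κ ^ 3 ≤ κ ^ 2 := pow_le_pow_of_le_one hκpos.le hκ1 (by norm_num)
  -- the tips
  have htip : ∀ k j : Option ι, ∃ q ∈ K, 1 - κ ^ 2 ≤ bc q k ∧
      ∀ y ∈ K, 1 - κ ^ 2 ≤ bc y k → bc q j ≤ bc y j := by
    intro k j
    have hcomp : IsCompact (K ∩ {y | 1 - κ ^ 2 ≤ bc y k}) :=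
      hK.comp.inter_right (isClosed_le continuous_const (continuous_bc k))
    have hne : (K ∩ {y | 1 - κ ^ 2 ≤ bc y k}).Nonempty := by
      refine ⟨p k, hp1 k, ?_⟩
      have h1 := hm' k
      rw [← hκ3] at h1
      simp only [he] at h1
      show 1 - κ ^ 2 ≤ bc (p k) k
      linarith
    obtain ⟨q, hq, hq2⟩ := hcomp.exists_isMinOn hne (continuous_bc j).continuousOn
    exact ⟨q, hq.1, hq.2, fun y hy hy2 => hq2 ⟨hy, hy2⟩⟩
  choose q hq1 hq2 hq3 using htip
  set d : Option ι → Option ι → ℝ := fun k j => if k = j then 0 else bc (q k j) j with hd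
  have hd0 : ∀ k j, 0 ≤ d k j := by
    intro k j
    simp only [hd]
    split_ifs
    · exact le_rfl
    · exact bc_nonneg (hT (hq1 k j)) j
  have hpk : ∀ k, 1 - κ ^ 2 ≤ bc (p k) k := by
    intro k
    have h1 := hm' k
    rw [← hκ3] at h1
    simp only [he] at h1
    linarith
  have hdp : ∀ k, ∑ j, d k j ≤ e k := by
    intro k
    have h1 : ∑ j, d k j ≤ ∑ j, (if k = j then 0 else bc (p k) j) := by
      refine Finset.sum_le_sum fun j _ => ?_
      simp only [hd]
      split_ifs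
      · exact le_rfl
      · exact hq3 k j (p k) (hp1 k) (hpk k)
    have h2 : ∑ j, (if k = j then 0 else bc (p k) j) = e k := by
      have h3 := sum_bc (p k)
      rw [← Finset.add_sum_erase _ _ (Finset.mem_univ k)] at h3 ⊢
      rw [if_pos rfl, zero_add]
      have h4 : ∑ x ∈ Finset.univ.erase k, (if k = x then 0 else bc (p k) x) =
          ∑ x ∈ Finset.univ.erase k, bc (p k) x := by
        refine Finset.sum_congr rfl fun x hx => ?_
        rw [if_neg (Ne.symm (Finset.ne_of_mem_erase hx))]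
      rw [h4]
      simp only [he]
      linarith
    linarith
  have hek : ∀ k, e k ≤ κ ^ 3 := fun k => by rw [hκ3]; exact hm' k
  have hdle : ∀ k j, d k j ≤ κ ^ 3 := fun k j =>
    (Finset.single_le_sum (fun j _ => hd0 k j) (Finset.mem_univ j)).trans ((hdp k).trans (hek k))
  have hdd : ∀ k, d k k = 0 := fun k => by simp only [hd, if_true]
  set θ : ℝ := 1 - 1 / (n : ℝ) with hθ
  have hθ0 : 0 ≤ θ := by
    rw [hθ, sub_nonneg, div_le_one (by linarith)]
    exact hn1
  have hθ1 : θ ≤ 1 := by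
    rw [hθ]
    have : 0 ≤ 1 / (n : ℝ) := by positivity
    linarith
  -- the polar volume
  have hDLL := fun o => fDLL hK hT κ θ (e o) hκpos.le hκ1 hθ0 hθ1 o
    (fun i => d o (Equiv.swap none o (some i))) (fun i => hd0 _ _)
    (by rw [sum_swap o (fun j => d o j) (hdd o)]; exact (hdp o).trans (hek o)) (he0 o) (hek o)
    (fun y hy => by
      have := hp2 o y hy
      simp only [he]
      linarith)
    (fun y hy hy2 i => by
      simp only [hd]
      rw [if_neg (Ne.symm (swap_ne o i))]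
      exact hq3 _ _ y hy hy2)
  have hW := polar_bound hK hT (fun o => (hDLL o).1.1) (fun o => (hDLL o).1.2.1)
    (fun o => (hDLL o).1.2.2)
  have hJ : ∀ o : Option ι, θ * (∑ j, d o j) / 2 + (1 - θ) * e o / ((n : ℝ) + 1) - n * κ ^ 4 ≤
      ∫ u in cub ι, dl K o u := by
    intro o
    have := (hDLL o).2
    rwa [sum_swap o (fun j => d o j) (hdd o)] at this
  set W := (volume (dpol K)).toReal with hWd
  have hcard : Fintype.card (Option ι) = n + 1 := Fintype.card_option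
  have hsumJ : θ * (∑ k, ∑ j, d k j) / 2 + (1 - θ) * κ ^ 3 / ((n : ℝ) + 1) -
      ((n : ℝ) + 1) * n * κ ^ 4 ≤ ∑ o : Option ι, ∫ u in cub ι, dl K o u := by
    refine le_trans ?_ (Finset.sum_le_sum fun o _ => hJ o)
    rw [Finset.sum_sub_distrib, Finset.sum_add_distrib, Finset.sum_const, Finset.card_univ, hcard,
      nsmul_eq_mul, ← Finset.sum_div, ← Finset.sum_div, ← Finset.mul_sum, ← Finset.mul_sum]
    have h1 : κ ^ 3 ≤ ∑ o, e o := by
      rw [hκ3]
      exact Finset.single_le_sum (fun o _ => he0 o) (Finset.mem_univ m)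
    have h2 : (1 - θ) * κ ^ 3 / ((n : ℝ) + 1) ≤ (1 - θ) * (∑ o, e o) / ((n : ℝ) + 1) := by
      apply div_le_div_of_nonneg_right _ (by positivity)
      exact mul_le_mul_of_nonneg_left h1 (by linarith)
    push_cast
    linarith
  have hA : 1 + θ * (∑ k, ∑ j, d k j) + c0 * κ ^ 3 - C1 * κ ^ 4 ≤ W / ((n : ℝ) + 1) := by
    rw [le_div_iff₀ (by positivity)]
    refine le_trans ?_ hW
    rw [mul_comm]
    apply mul_le_mul_of_nonneg_left _ (by positivity)
    have h1 : 2 * ((1 - θ) * κ ^ 3 / ((n : ℝ) + 1)) = c0 * κ ^ 3 := by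
      rw [hθ, hc0]
      field_simp
      ring
    have h2 : C1 * κ ^ 4 = 2 * (((n : ℝ) + 1) * n * κ ^ 4) := by rw [hC1]; ring
    linarith
  have hB := volume_bound hK hT hc κ hκpos hκ14
    (fun k => ⟨p k, hp1 k, by
      have h1 := hek k
      simp only [he] at h1
      linarith⟩) d (fun k j => ⟨hd0 k j, hdle k j⟩) hdd
    (fun k j hkj => ⟨q k j, hq1 k j, hq2 k j, by
      simp only [hd]
      rw [if_neg hkj]⟩)
  rw [← hn, ← hC2, ← hθ] at hB
  have hD0 : 0 ≤ ∑ k, ∑ j, d k j := Finset.sum_nonneg fun k _ => Finset.sum_nonneg fun j _ => hd0 k j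
  have hDN : ∑ k, ∑ j, d k j ≤ N * κ ^ 3 := by
    calc ∑ k, ∑ j, d k j ≤ ∑ _k : Option ι, κ ^ 3 :=
          Finset.sum_le_sum fun k _ => (hdp k).trans (hek k)
      _ = N * κ ^ 3 := by
          rw [Finset.sum_const, Finset.card_univ, hcard, nsmul_eq_mul, hN]
          push_cast
          ring
  have haN : θ * (∑ k, ∑ j, d k j) ≤ N * κ ^ 3 := by
    have h1 : θ * (∑ k, ∑ j, d k j) ≤ 1 * (∑ k, ∑ j, d k j) :=
      mul_le_mul_of_nonneg_right hθ1 hD0
    linarith
  have hfin := arith (θ * ∑ k, ∑ j, d k j) c0 C1 C2 N κ (mul_nonneg hθ0 hD0) haN hc00 hc01 hC10 hC20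
    hN1 hκpos hκ1 hκM (W / ((n : ℝ) + 1)) ((volume K).toReal / (volume (T ι)).toReal) hA hB
  have hF : F K = ((n : ℝ) + 1) / (n.factorial : ℝ) *
      (W / ((n : ℝ) + 1) * ((volume K).toReal / (volume (T ι)).toReal)) := by
    unfold F
    rw [vol_T_real, ← hn, ← hWd]
    field_simp
  rw [hF]
  exact mul_le_mul_of_nonneg_left hfin (by positivity)

/-- Scaling of the volume under affine equivalences. -/
theorem affine_vol (A : (ι → ℝ) ≃ᵃ[ℝ] (ι → ℝ)) : ∃ m : ℝ, 0 < m ∧
    ∀ S : Set (ι → ℝ), (volume (A '' S)).toReal = m * (volume S).toReal := by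
  refine ⟨|LinearMap.det (A.linear : (ι → ℝ) →ₗ[ℝ] (ι → ℝ))|, ?_, fun S => ?_⟩
  · rw [abs_pos]
    exact (LinearEquiv.isUnit_det' A.linear).ne_zero
  · have h1 : A '' S = (fun z => z + A 0) '' (A.linear '' S) := by
      rw [image_image]
      refine image_congr fun x _ => ?_
      have h3 := A.map_vadd 0 x
      simpa using h3
    have h2 : volume ((fun z => z + A 0) '' (A.linear '' S)) = volume (A.linear '' S) := by
      rw [image_add_right, measure_preimage_add_right]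
    have h3 : volume (A.linear '' S) =
        ENNReal.ofReal |LinearMap.det (A.linear : (ι → ℝ) →ₗ[ℝ] (ι → ℝ))| * volume S :=
      Measure.addHaar_image_linearMap volume (A.linear : (ι → ℝ) →ₗ[ℝ] (ι → ℝ)) S
    rw [h1, h2, h3, ENNReal.toReal_mul, ENNReal.toReal_ofReal (abs_nonneg _)]

/-- Local minimality of the simplex, with stability. -/
theorem local_min [Nonempty ι] : ∃ ε : ℝ, 0 < ε ∧ ∃ c : ℝ, 0 < c ∧
    ∀ K : Set (ι → ℝ), IsBody K → ∀ D : Set (ι → ℝ), IsSimplex D → K ⊆ D →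
      (1 - ε) * (volume D).toReal ≤ (volume K).toReal →
      ∃ D' : Set (ι → ℝ), IsSimplex D' ∧ K ⊆ D' ∧
        ((Fintype.card ι : ℝ) + 1) / ((Fintype.card ι).factorial : ℝ) *
          (1 + c * (1 - (volume K).toReal / (volume D').toReal)) ≤ F K := by
  obtain ⟨κ0, hκ0, c, hc, hcore⟩ := core (ι := ι)
  set n := Fintype.card ι with hn
  have hn0 : 0 < n := Fintype.card_pos
  set κ1 := min κ0 1 with hκ1
  have hκ10 : 0 < κ1 := lt_min hκ0 one_pos
  refine ⟨(κ1 ^ 3) ^ n, by positivity, c, hc, fun K hK D hD hKD hvol => ?_⟩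
  obtain ⟨A, hA1, hA2⟩ := fMINS hK
  obtain ⟨m, hm, hmv⟩ := affine_vol A
  have hK' : IsBody (A '' K) := hK.affine A
  have hT' : volume (T ι) ≤ volume (A '' D) := hA2 _ (hD.affine A) (image_mono hKD)
  have hDt : volume (A '' D) ≠ ⊤ := (hD.affine A).isBody.vol_ne_top
  have hT'' : (volume (T ι)).toReal ≤ m * (volume D).toReal := by
    rw [← hmv]
    exact ENNReal.toReal_mono hDt hT'
  have hv0 : 0 < (volume (T ι)).toReal := body_T.vol_pos
  have hκ11 : (κ1 ^ 3) ^ n ≤ 1 := pow_le_one₀ (by positivity)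
    (pow_le_one₀ hκ10.le (min_le_right _ _))
  have hK'v : (1 - (κ1 ^ 3) ^ n) * (volume (T ι)).toReal ≤ (volume (A '' K)).toReal := by
    rw [hmv]
    calc (1 - (κ1 ^ 3) ^ n) * (volume (T ι)).toReal
        ≤ (1 - (κ1 ^ 3) ^ n) * (m * (volume D).toReal) :=
          mul_le_mul_of_nonneg_left hT'' (by linarith)
      _ = m * ((1 - (κ1 ^ 3) ^ n) * (volume D).toReal) := by ring
      _ ≤ m * (volume K).toReal := mul_le_mul_of_nonneg_left hvol hm.le
  have hnear : ∀ o : Option ι, ∃ p ∈ A '' K, 1 - κ0 ^ 3 ≤ bc p o := by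
    intro o
    obtain ⟨p, hp, hp2⟩ := hK'.comp.exists_isMaxOn hK'.nonempty (continuous_bc o).continuousOn
    refine ⟨p, hp, ?_⟩
    set e := 1 - bc p o with he
    have he0 : 0 ≤ e := by
      have := bc_le_one (hA1 hp) o
      linarith
    have he1 : e ≤ 1 := by
      have := bc_nonneg (hA1 hp) o
      linarith
    have h1 := fEPS hA1 o e he0 he1 (fun y hy => by
      have : bc y o ≤ bc p o := hp2 hy
      linarith)
    rw [← hn] at h1
    have h2 : (1 - (κ1 ^ 3) ^ n) * (volume (T ι)).toReal ≤ (1 - e ^ n) * (volume (T ι)).toReal :=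
      hK'v.trans h1
    have h3 : e ^ n ≤ (κ1 ^ 3) ^ n := by
      have := le_of_mul_le_mul_right h2 hv0
      linarith
    have h4 : e ≤ κ1 ^ 3 := le_of_pow_le_pow_left₀ hn0.ne' (by positivity) h3
    have h5 : κ1 ^ 3 ≤ κ0 ^ 3 := pow_le_pow_left₀ hκ10.le (min_le_left _ _) 3
    linarith
  have hcen := fun o => fCEN hK' hA1 hA2 o
  have hmain := hcore (A '' K) hK' hA1 hcen hnear
  have hsymm : A.symm '' (A '' K) = K := by
    rw [image_image]
    simp
  have hsub : K ⊆ A.symm '' T ι := by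
    intro x hx
    exact ⟨A x, hA1 ⟨x, hx, rfl⟩, by simp⟩
  refine ⟨A.symm '' T ι, simplex_T.affine A.symm, hsub, ?_⟩
  rw [F_affine] at hmain
  have hDv : (volume (A.symm '' T ι)).toReal = m⁻¹ * (volume (T ι)).toReal := by
    have h1 := hmv (A.symm '' T ι)
    have h2 : A '' (A.symm '' T ι) = T ι := by
      rw [image_image]
      simp
    rw [h2] at h1
    rw [h1, ← mul_assoc, inv_mul_cancel₀ hm.ne', one_mul]
  have hratio : (volume K).toReal / (volume (A.symm '' T ι)).toReal =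
      (volume (A '' K)).toReal / (volume (T ι)).toReal := by
    rw [hDv, hmv]
    field_simp
  rw [hratio]
  exact hmain

/-- A body contained in a body of the same volume is equal to it. -/
theorem eq_of_vol_eq {K L : Set (ι → ℝ)} (hK : IsBody K) (hL : IsBody L) (h : K ⊆ L)
    (hv : (volume L).toReal ≤ (volume K).toReal) : K = L := by
  by_contra hne
  obtain ⟨x, hxL, hxK⟩ : ∃ x ∈ L, x ∉ K := by
    by_contra hcon
    push Not at hcon
    exact hne (Subset.antisymm h hcon)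
  have hopen : IsOpen (Kᶜ) := hK.comp.isClosed.isOpen_compl
  have hcl : x ∈ closure (interior L) := by
    rw [hL.conv.closure_interior_eq_closure_of_nonempty_interior hL.int]
    exact subset_closure hxL
  obtain ⟨y, hy1, hy2⟩ := mem_closure_iff.1 hcl _ hopen hxK
  have hpos : 0 < volume (Kᶜ ∩ interior L) :=
    (hopen.inter isOpen_interior).measure_pos volume ⟨y, hy1, hy2⟩
  have hsum : volume K + volume (Kᶜ ∩ interior L) ≤ volume L := by
    rw [← measure_union (disjoint_left.2 fun z hz hz2 => hz2.1 hz)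
      (hopen.inter isOpen_interior).measurableSet]
    exact measure_mono (union_subset h (inter_subset_right.trans interior_subset))
  have hKL : volume L ≤ volume K := by
    rw [← ENNReal.ofReal_toReal hL.vol_ne_top, ← ENNReal.ofReal_toReal hK.vol_ne_top]
    exact ENNReal.ofReal_le_ofReal hv
  have h1 : volume K + volume (Kᶜ ∩ interior L) ≤ volume K + 0 := by
    rw [add_zero]; exact hsum.trans hKL
  have h2 := (ENNReal.add_le_add_iff_left hK.vol_ne_top).1 h1
  exact absurd h2 (not_le.2 hpos)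

end Pool.Agent.Helper67.LM
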