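import Pool.Agent.Helper47.AQ.Phi

/-!
# Local minimality of the simplex (MP_6fb600_gt, i = 1): definitions

`n = Fintype.card ι`.  `IsBody`, `IsSimplex`, `dpol K = (K - K)°`, `F K = V(K) V((K-K)°)`, `hs`, `wd`,
`P ι` (the open positive orthant) come from `Pool/Agent/Helper47/AQ`.
-/

open MeasureTheory Set
open scoped ENNReal
open Pool.Agent.Helper47.AQ

noncomputable section

namespace Pool.Agent.Helper67.LM

/-- The standard simplex (vertices `0` and the unit vectors). -/
def T (ι : Type) [Fintype ι] : Set (ι → ℝ) := {x | (∀ i, 0 ≤ x i) ∧ ∑ i, x i ≤ 1}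

variable {ι : Type} [Fintype ι]

/-- The barycentric coordinates with respect to `T`; `none` is the vertex `0`, `some i` the vertex
`e_i`. -/
def bc (x : ι → ℝ) : Option ι → ℝ
  | none => 1 - ∑ i, x i
  | some i => x i

variable [DecidableEq ι]

/-- The barycentric coordinates different from the `o`-th, as a vector of `ℝ^ι`: this is the affine
symmetry of `T` which exchanges the vertices `none` and `o` (an involution, the identity for
`o = none`). -/
def co (o : Option ι) (x : ι → ℝ) : ι → ℝ := fun i => bc x (Equiv.swap none o (some i))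

/-- `dl K o u = min_{y ∈ K} ⟨u, co o y⟩`. -/
def dl (K : Set (ι → ℝ)) (o : Option ι) (u : ι → ℝ) : ℝ :=
  sInf ((fun y : ι → ℝ => ∑ i, u i * co o y i) '' K)

/-- The open unit cube. -/
def cub (ι : Type) : Set (ι → ℝ) := {x | ∀ i, 0 < x i ∧ x i < 1}

/-- A thin region at the facet `∑ x_i = 1` of `T`. -/
def RR (d : ι → ℝ) : Set (ι → ℝ) :=
  {x | x ∈ T ι ∧ 1 - ∑ i, x i < ∑ i, d i * (x i - ⨅ j, x j)}

end Pool.Agent.Helper67.LM
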