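import Pool.Agent.Helper67.LM.Defs

/-!
# Local minimality of the simplex (MP_6fb600_gt, i = 1): goals (do not import this file)

Result: for every `n` there are `ε, c > 0` such that every convex body `K` which is contained in a
simplex `Δ` with `V(K) ≥ (1-ε) V(Δ)` satisfies `V(K) V((K-K)°) ≥ (n+1)/n! (1 + c (1 - V(K)/V(Δ')))`
for some simplex `Δ' ⊇ K` (so `≥ (n+1)/n!` with equality only for simplices).

Plan of the proof: by `MINS`, `CEN` we may assume that `K ⊆ T`, that `T` is a simplex of minimal volume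
containing `K`, so the centroids of the facets of `T` are in `K`.  Let `b_o` be the barycentric
coordinates (`bc`), `ε_o = 1 - max_K b_o` (small by `EPS`), `κ³ = max ε_o`, `d_{ko} = min b_o` on
`K ∩ {b_k ≥ 1 - κ²}`.  `POLE`, `HOM`, `CUB`, `DLL`: `V((K-K)°) ≥ (n+1)(1 + (1-1/n) ∑ d_{ko} +
2/(n(n+1)) ∑ ε_o - C κ⁴)`.  `COV`, `RV0`, `BAD`: `V(K)/V(T) ≥ 1 - (1-1/n) ∑ d_{ko} - C κ⁴`.
-/

open MeasureTheory Set
open scoped ENNReal
open Pool.Agent.Helper47.AQ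

noncomputable section

namespace Pool.Agent.Helper67.LM

variable {ι : Type} [Fintype ι] [DecidableEq ι]

/-- **SYM.**  Proof.  `∑_o bc x o = 1` and `co o x` has the barycentric coordinates
`bc x ∘ swap none o` (at `none`: `1 - ∑_i bc x (swap none o (some i)) = bc x (swap none o none)`
because `swap none o` is a bijection), which gives the involution and `T`.  `co o` is an affine
equivalence (its own inverse).  `volume (A '' S) = |det A.linear| * volume S`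
(`MeasureTheory.Measure.addHaar_image_linearMap` and translation invariance), and
`co o '' T = T` with `0 < volume T < ∞` gives `|det| = 1` (or: the linear part is an involution). -/
theorem SYM (o : Option ι) :
    Function.Involutive (co o : (ι → ℝ) → (ι → ℝ)) ∧ (∀ x : ι → ℝ, co o x ∈ T ι ↔ x ∈ T ι) ∧
    (∀ (x : ι → ℝ) (o' : Option ι), bc (co o x) o' = bc x (Equiv.swap none o o')) ∧
    (∃ A : (ι → ℝ) ≃ᵃ[ℝ] (ι → ℝ), ∀ x, A x = co o x) ∧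
    (∀ S : Set (ι → ℝ), volume (co o '' S) = volume S) ∧
    MeasurePreserving (co o : (ι → ℝ) → (ι → ℝ)) volume volume := sorry

/-- **POLE.**  Proof.  `IsBody.laplace` (Helper47/AQ/Body.lean) for `K` and for `T` (`T` is a body).
`δ(p) = hs T p - hs K p ≥ 0`, `wd K p = wd T p - δ(p) - δ(-p)`, so `exp(-wd K p) ≥
exp(-wd T p) (1 + δ(p) + δ(-p))`, and `∫ exp(-wd T p) δ(p) = ∫ exp(-wd T p) δ(-p)` (`p → -p`).
Let `B_none = id`, `(B_{some j} u)_i = u_i - u_j` for `i ≠ j`, `(B_{some j} u)_j = -u_j`: linear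
involutions, so they preserve the volume (`|det| = 1`).  `⟨u, co o y⟩ = ⟨B_o u, y⟩ + ⟨u, co o 0⟩`.
For `p = B_o u`, `u ∈ P ι` (all `u_i > 0`): `δ(-p) = sup_{y ∈ T} (-⟨u, co o y⟩) -
sup_{y ∈ K} (-⟨u, co o y⟩) = 0 + dl K o u` (`co o` maps `T` onto `T ⊆ {x ≥ 0}`, `0 ∈ T`), and
`wd T p = sup_T ⟨u, co o y⟩ - inf_T ⟨u, co o y⟩ = ‖u‖` (sup norm, `T` has the vertices `0, e_i`).
The sets `B_o '' P ι` are pairwise disjoint (`p ∈ B_none '' P`: all `p_i > 0`;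
`p ∈ B_{some j} '' P`: `p_j < 0`, `p_j < p_i` for `i ≠ j`).  (`dl K o` is continuous.) -/
theorem POLE [Nonempty ι] {K : Set (ι → ℝ)} (hK : IsBody K) (hT : K ⊆ T ι) :
    ((Fintype.card ι).factorial : ℝ≥0∞) * volume (dpol (T ι)) +
      2 * ∑ o : Option ι, ∫⁻ u in P ι, ENNReal.ofReal (Real.exp (-‖u‖) * dl K o u) ≤
    ((Fintype.card ι).factorial : ℝ≥0∞) * volume (dpol K) := sorry

/-- **HOM.**  Proof.  `exp(-‖u‖) = ∫_{t > ‖u‖} exp(-t) dt`, Tonelli, `{u ∈ P ι | ‖u‖ < t} = t • cub ι`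
for `t > 0`, `∫_{t • cub} h = t^n · t · ∫_{cub} h`, `∫_0^∞ t^(n+1) exp(-t) dt = (n+1)!`
(see `AQ.laplace`, Helper47/AQ/Vol.lean, for the same computation with `h = 1`). -/
theorem HOM [Nonempty ι] (h : (ι → ℝ) → ℝ≥0∞) (hm : Measurable h)
    (hh : ∀ t : ℝ, 0 < t → ∀ u, h (t • u) = ENNReal.ofReal t * h u) :
    ∫⁻ u in P ι, ENNReal.ofReal (Real.exp (-‖u‖)) * h u =
      ((Fintype.card ι + 1).factorial : ℝ≥0∞) * ∫⁻ u in cub ι, h u := sorry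

/-- **CUB.**  Proof.  Product measure on the cube.  `∫ min = ∫_0^1 vol {min > t} dt =
∫_0^1 (1-t)^n dt`; `{min < κ}` is the union of the sets `{u_i < κ}`. -/
theorem CUB [Nonempty ι] : volume (cub ι) = 1 ∧ (∀ i, ∫ u in cub ι, u i = 1 / 2) ∧
    ∫ u in cub ι, (⨅ j, u j) = 1 / ((Fintype.card ι : ℝ) + 1) ∧
    ∀ κ : ℝ, 0 ≤ κ → (volume {u : ι → ℝ | u ∈ cub ι ∧ (⨅ j, u j) < κ}).toReal ≤
      Fintype.card ι * κ := sorry

/-- **DLL.**  (You may take the statement `CUB` as a hypothesis.)  Proof.  `dl K o` is continuous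
(`y ↦ co o y` is bounded on `K`; an infimum of functions which are Lipschitz in `u` with the same
constant) and `dl K o u ≥ θ ∑ d_i u_i + (1-θ) e min u - κ³ 1[min u < κ]` for `u` in the cube:
let `y ∈ K`, `s = ∑ u_i (co o y)_i`, all `(co o y)_i ≥ 0` with sum `1 - bc y o ≥ e`, so
`s ≥ min u · (1 - bc y o)`.  If `bc y o ≥ 1 - κ²`: `s ≥ ∑ d_i u_i` and `s ≥ e min u`.
If `bc y o < 1 - κ²` and `min u ≥ κ`: `s ≥ κ · κ² ≥ θ ∑ d_i + (1-θ) e`.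
If `min u < κ`: the right side is `≤ 0`.  Integrate over the cube. -/
theorem DLL [Nonempty ι] {K : Set (ι → ℝ)} (hK : IsBody K) (hT : K ⊆ T ι) (κ θ e : ℝ)
    (hκ0 : 0 ≤ κ) (hκ1 : κ ≤ 1) (hθ0 : 0 ≤ θ) (hθ1 : θ ≤ 1) (o : Option ι) (d : ι → ℝ)
    (hd0 : ∀ i, 0 ≤ d i) (hds : ∑ i, d i ≤ κ ^ 3) (he0 : 0 ≤ e) (he1 : e ≤ κ ^ 3)
    (hKe : ∀ y ∈ K, bc y o ≤ 1 - e)
    (hKd : ∀ y ∈ K, 1 - κ ^ 2 ≤ bc y o → ∀ i, d i ≤ co o y i) :
    (Continuous (dl K o) ∧ (∀ u ∈ P ι, 0 ≤ dl K o u) ∧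
      ∀ t : ℝ, 0 < t → ∀ u, dl K o (t • u) = t * dl K o u) ∧
    θ * (∑ i, d i) / 2 + (1 - θ) * e / ((Fintype.card ι : ℝ) + 1) - Fintype.card ι * κ ^ 4 ≤
      ∫ u in cub ι, dl K o u := sorry

/-- **RV0.**  Proof.  Let `C = {x | ∀ i, 0 ≤ x i}`, `N x = ∑ x_i + ∑ d_i (x_i - min x)`:
`RR d = {x ∈ C | ∑ x_i ≤ 1 < N x}` and `N x ≥ ∑ x_i`, so
`vol (RR d) = vol (C ∩ {∑ ≤ 1}) - vol (C ∩ {N ≤ 1})`.  By `AQ.laplace` (Helper47/AQ/Vol.lean; extend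
`N` to a nonnegative function outside `C`, e.g. by `max 0`)
`n! vol (C ∩ {N ≤ 1}) = ∫_C exp(-N) ≥ ∫_C exp(-∑ x_i) (1 - ∑ d_i (x_i - min x)) =
1 - ∑ d_i (1 - 1/n)`: `x_i` are independent exponential variables, `E x_i = 1`, `E min x = 1/n`
(`P(min > t) = exp(-n t)`), and `n! vol (C ∩ {∑ ≤ 1}) = ∫_C exp(-∑ x_i) = 1`. -/
theorem RV0 [Nonempty ι] (d : ι → ℝ) (hd : ∀ i, 0 ≤ d i) :
    volume (RR d) ≤ ENNReal.ofReal ((1 - 1 / (Fintype.card ι : ℝ)) * ∑ i, d i) * volume (T ι) := sorry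

/-- **BAD.**  (You may take `SYM` as a hypothesis.)  Proof.  If `card ι = 1` then
`bc x j + bc x k = 1` and the set is empty.  If `card ι ≥ 2` and `j = some a`, `k = some b`: the set
is contained in a box with two sides `[0,s)`, `[0,t)` and the other sides `[0,1]`.  If `j = none`,
`k = some b` (or conversely) choose `a ≠ b` and apply the symmetry `co (some a)`. -/
theorem BAD [Nonempty ι] (j k : Option ι) (hjk : j ≠ k) (s t : ℝ) (hs : 0 ≤ s) (ht : 0 ≤ t)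
    (hst : s + t < 1) :
    volume {x : ι → ℝ | x ∈ T ι ∧ bc x j < s ∧ bc x k < t} ≤ ENNReal.ofReal (s * t) := sorry

/-- **COV.**  Proof.  Let `x ∈ T`, `x ∉ K`.  Separate: an affine function `ℓ` with `ℓ(x) < 0 < ℓ(y)`
for `y ∈ K` (`K` compact convex).  Let `ℓ_o` be its values at the vertices, `ℓ(y) = ∑_o ℓ_o b_o(y)`
(`b_o(y) = bc y o`).  `max ℓ_o > 0` (as `ℓ > 0` on `K ⊆ T`); scale: `ℓ_j = 1 = max ℓ_o`.
For each `k`, with `p ∈ K`, `b_k(p) ≥ 1 - κ³`: `0 < ℓ_k b_k(p) + (1 - b_k(p))`, so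
`ℓ_k ≥ -κ³/(1-κ³) ≥ -2κ³`.  So `ℓ(x) < 0` gives `b_j(x) < 2κ³` and `ℓ_k b_k(x) < 2κ³` for all `k`
with `ℓ_k > 0`.  If `b_k(x) < κ` for some `k ≠ j`: second set.  Otherwise `-2κ³ ≤ ℓ_k ≤ 2κ²` for all
`k ≠ j`.  Let `p ∈ K` with `b_k(p) ≥ 1 - κ²`, `b_j(p) ≤ d k j`: `0 < b_j(p) + ℓ_k b_k(p) +
∑_{l ≠ j,k} ℓ_l b_l(p) ≤ d k j + ℓ_k b_k(p) + 2κ⁴`, so (if `ℓ_k < 0`)
`ℓ_k ≥ -(d k j + 2κ⁴)/(1-κ²) ≥ -(d k j + 8κ⁴) =: -d'_k`.  The facet centroid `c` (`b_j = 0`, the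
other coordinates `1/n`) is in `K`, so `∑_{k ≠ j} ℓ_k ≥ 0`.  With `m = min_{k ≠ j} b_k(x)`:
`b_j(x) < -∑_{k≠j} ℓ_k b_k(x) = -∑ ℓ_k (b_k(x) - m) - m ∑ ℓ_k ≤ ∑_{k ≠ j} d'_k (b_k(x) - m)`: first
set (`k = swap none j (some i)`, `i ∈ ι`, runs over the indices `≠ j`, and
`b_j(x) = 1 - ∑_i (co j x)_i`). -/
theorem COV [Nonempty ι] {K : Set (ι → ℝ)} (hK : IsBody K) (hT : K ⊆ T ι)
    (hc : ∀ o : Option ι, co o (fun _ => 1 / (Fintype.card ι : ℝ)) ∈ K) (κ : ℝ) (hκ0 : 0 < κ)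
    (hκ1 : κ ≤ 1 / 4) (hp : ∀ k : Option ι, ∃ p ∈ K, 1 - κ ^ 3 ≤ bc p k)
    (d : Option ι → Option ι → ℝ) (hd : ∀ k j, 0 ≤ d k j ∧ d k j ≤ κ ^ 3)
    (hdp : ∀ k j, k ≠ j → ∃ p ∈ K, 1 - κ ^ 2 ≤ bc p k ∧ bc p j ≤ d k j) :
    T ι \ K ⊆ (⋃ j : Option ι, {x | x ∈ T ι ∧
        co j x ∈ RR (fun i => d (Equiv.swap none j (some i)) j + 8 * κ ^ 4)}) ∪
      ⋃ j : Option ι, ⋃ k : Option ι, {x | k ≠ j ∧ x ∈ T ι ∧ bc x j < 2 * κ ^ 3 ∧ bc x k < κ} := sorry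

/-- **EPS.**  (You may take `SYM` as a hypothesis.)  Proof.  By the symmetry `co o` we may assume
`o = none` (replace `K` by `co o '' K`): `K ⊆ T \ {x ∈ T | ∑ x_i < e}`, and `{x ∈ T | ∑ x_i < e}` is
`e • T` up to a null set, of volume `e^n vol T`. -/
theorem EPS [Nonempty ι] {K : Set (ι → ℝ)} (hT : K ⊆ T ι) (o : Option ι)
    (e : ℝ) (he0 : 0 ≤ e) (he1 : e ≤ 1) (h : ∀ y ∈ K, bc y o ≤ 1 - e) :
    (volume K).toReal ≤ (1 - e ^ Fintype.card ι) * (volume (T ι)).toReal := sorry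

/-- **MINS.**  Proof.  Let `S` be the set of the pairs `(M, b)`, `M : ι → ι → ℝ` (a matrix), `b : ι → ℝ`
with `M x + b ∈ T` for all `x ∈ K`.  `S` is closed and bounded (`x₀, x₀ + r e_i ∈ K` for some `r > 0`
and all `i`: the entries of `M` are at most `1/r`), hence compact, so `|det M|` has a maximum on `S`,
and it is positive (`M = r • 1` with small `r > 0` and suitable `b`, as `K` is bounded).  Let `A` be the
affine equivalence `x ↦ M x + b` of a maximiser.  If `Δ' ⊇ A '' K` is a simplex then there is an affine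
equivalence `A'` with `A' '' Δ' = T` (`IsSimplex.equiv`; `T` is a simplex: `AQ.simplexW` with weights
`1`, `AQ.corner_simplex.body`), `A' ∘ A` is in `S`, so
`|det A'.linear| ≤ 1`, and `vol T = |det A'.linear| vol Δ' ≤ vol Δ'`. -/
theorem MINS [Nonempty ι] {K : Set (ι → ℝ)} (hK : IsBody K) :
    ∃ A : (ι → ℝ) ≃ᵃ[ℝ] (ι → ℝ), A '' K ⊆ T ι ∧
      ∀ D : Set (ι → ℝ), IsSimplex D → A '' K ⊆ D → volume (T ι) ≤ volume D := sorry

/-- **CEN.**  (You may take `SYM` as a hypothesis.)  Proof.  By the symmetry `co o` we may assume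
`o = none`: `c = (1/n,…,1/n)`.  Suppose `c ∉ K` and let `f` be an affine function with `f(c) < 0 < f`
on `K`.  Let `g_i = f(e_i)`, so `f(x) = ∑ g_i x_i + (1 - ∑ x_i) f(0)` and `∑ g_i = n f(c) < 0`.  For
`t > 0` let `D_t = {x ≥ 0 | ∑ x_i (1 - t g_i) ≤ 1}`.  For small `t > 0` the weights `1 - t g_i` are
positive, so `D_t` is a simplex (`AQ.simplexW`) and it is the image of `T` under the diagonal map with
entries `1/(1 - t g_i)`, `vol D_t = vol T/∏ (1 - t g_i)`.  `K ⊆ D_t` if `t f(0) < 1`: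
`1 - ∑ x_i (1 - t g_i) = (1 - ∑ x_i)(1 - t f(0)) + t f(x) ≥ 0` on `K`.  And
`∏ (1 - t g_i) > 1` for small `t > 0` (derivative `-∑ g_i > 0` at `t = 0`).  Contradiction. -/
theorem CEN [Nonempty ι] {K : Set (ι → ℝ)} (hK : IsBody K) (hT : K ⊆ T ι)
    (hmin : ∀ D : Set (ι → ℝ), IsSimplex D → K ⊆ D → volume (T ι) ≤ volume D) (o : Option ι) :
    co o (fun _ => 1 / (Fintype.card ι : ℝ)) ∈ K := sorry

/-- **FIN** (architect; assembly of the other statements). -/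
theorem FIN (n : ℕ) (hn : 1 ≤ n) : ∃ ε : ℝ, 0 < ε ∧ ∃ c : ℝ, 0 < c ∧
    ∀ K : Set (Fin n → ℝ), IsBody K → ∀ D : Set (Fin n → ℝ), IsSimplex D → K ⊆ D →
      (1 - ε) * (volume D).toReal ≤ (volume K).toReal →
      ∃ D' : Set (Fin n → ℝ), IsSimplex D' ∧ K ⊆ D' ∧
        ((n : ℝ) + 1) / (n.factorial : ℝ) * (1 + c * (1 - (volume K).toReal / (volume D').toReal)) ≤
          F K := sorry

end Pool.Agent.Helper67.LM
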